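import Pool.Agent.Run7.h164.PQ

set_option autoImplicit false

/-!
Verra fourfolds with equivalent Kuznetsov components: if the component contains no even triple, then
both fourfolds are rational, and in particular birational to each other.
-/

open CategoryTheory Run7.h164.ST

namespace Pool.Agent.Results.MP_7cc55e_ag.NoEvenTriple

/-- Let `S` be a set of pairs contained in `{(0,0), (1,0), (0,1), (1,1), (2,1), (1,2)}`; for the
whole set, `Ku V.Y S` is the Kuznetsov component of K3 type of the Verra fourfold `V.Y`. Let `V` and
`V'` be Verra fourfolds and let `Φ` be an equivalence between `Ku V.Y S` and `Ku V'.Y S`, linear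
over the complex numbers and commuting with the shift on objects. If `Ku V.Y S` contains no even
triple, that is no objects `A`, `B`, `L` with Euler pairings `χ(A, A) = χ(B, B) = 0`,
`χ(A, B) = χ(B, A) = 2`, `χ(L, L) = -2`, with `L` orthogonal to `A` and `B` and with all `χ(E, A)`,
`χ(E, B)` even, then `V` and `V'` are rational, and they are birational to each other. -/
theorem result (S : Set (ℕ × ℕ)) (hS : S ⊆ {(0, 0), (1, 0), (0, 1), (1, 1), (2, 1), (1, 2)})
    (V V' : Verra) (Φ : (Ku V.Y S).FullSubcategory ⥤ (Ku V'.Y S).FullSubcategory)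
    [Φ.IsEquivalence] [Φ.Additive] [Φ.Linear ℂ] (hΦ : CommShift Φ)
    (h : ¬ ∃ A B L : D V.Y, EvenTriple (Ku V.Y S) A B L) :
    Rational V.Y ∧ Rational V'.Y ∧ Birational V.Y V'.Y :=
  Run7.h164.main_triple S hS V V' Φ hΦ h

end Pool.Agent.Results.MP_7cc55e_ag.NoEvenTriple
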